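import Pool.Agent.T9h36.N1.Spec
import Pool.Agent.T9h61.NK.N1

/-!
# Project NK, slope 1, piece (N1)
-/

set_option autoImplicit false

namespace Pool.Agent.T9h61.N1

open Pool.Agent.T9h44.NK Pool.Agent.T9h36.N1

theorem n1 : S_SH → S_N1 := by
  intro hSH d P H v n w n' ι ι' k m hP hH hv hw hne hFew hNot
  obtain ⟨a1, a2, a3, a4, a5⟩ := hv
  obtain ⟨b1, b2, b3, b4, b5⟩ := hw
  exact Pool.Agent.T9h61.NK.n1g hSH d P H v n ι w n' ι' m k hP hH a1 a2 a3 a4 a5 b1 b2 b3 b4 b5 hne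
    (by rwa [add_comm m k]) hNot

end Pool.Agent.T9h61.N1
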