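import Pool.Agent.T9h36.N1.Spec
import Pool.Agent.T9h61.NK.N1
import Pool.Agent.T9h61.NK.Locs

/-!
# Project NK, slope 1, piece (N5)
-/

set_option autoImplicit false

open Set
open scoped RealInnerProductSpace

namespace Pool.Agent.T9h61.N1

open Pool.Agent.T9h98.DC Pool.Agent.T9h44.NK Pool.Agent.T9h36.N1 Pool.Agent.T9h48.NK

theorem dm_single {d : ℕ} (x : E d) : dm ({x} : Set (E d)) = 0 := by
  simp [dm, vectorSpan_singleton]

/-- `PT 1` of the figure: the neighbours are equivalent under the stabilizer -/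
theorem nbtrans (hNB : S_NB) {d : ℕ} {P : Set (E (d + 1))}
    {H : Subgroup (E (d + 1) ≃ₗᵢ[ℝ] E (d + 1))} {w n : E (d + 1)} {ι : E d →ₗᵢ[ℝ] E (d + 1)}
    (hP : IsPolytope P) (hH : Pres H P) (hw : Dat P H w n ι)
    (hPT : PT 1 (figH H w ι) (fig w n ι P)) {y y' : E (d + 1)} (hy : Adj P w y)
    (hy' : Adj P w y') : ∃ h ∈ H, h w = w ∧ h y = y' := by
  obtain ⟨b1, b2, b3, b4, b5⟩ := hw
  obtain ⟨nb1, -, nb3, -⟩ := hNB d P w n ι hP b1 b2 b3 b4
  obtain ⟨x, hx, hxy⟩ := nb1 y hy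
  obtain ⟨x', hx', hxy'⟩ := nb1 y' hy'
  obtain ⟨k, ⟨h, hh, hhw, hk⟩, hkx⟩ := hPT
    ⟨fun _ => {x}, fun _ => hx, fun i => by rw [dm_single]; omega, fun _ _ _ => le_rfl⟩
    ⟨fun _ => {x'}, fun _ => hx', fun i => by rw [dm_single]; omega, fun _ _ _ => le_rfl⟩
  have hkx' : k x = x' := by
    have := hkx 0
    change k '' {x} = {x'} at this
    rw [image_singleton] at this
    exact singleton_injective this
  refine ⟨h, hh, hhw, ?_⟩
  have ha := Pool.Agent.T9h61.NK.adj_image h (hH h hh) hhw hy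
  have hp : Pr w n ι (h y) x' := by
    obtain ⟨t, ht, he⟩ := hxy
    refine ⟨t, ht, ?_⟩
    calc h y - w = h y - h w := by rw [hhw]
      _ = h (y - w) := by rw [map_sub]
      _ = t • (n + ι x') := by
        rw [he, map_smul, map_add, b5 h hh hhw, ← hk, hkx']
  exact (nb3 _ _ _ _ ha hy' hp hxy').1 rfl

/-- the second face of a chain through `w` is an edge `[w, u]` -/
theorem edge_of (hF : S_FACES) {d j : ℕ} {P : Set (E (d + 1))} (hP : IsPolytope P)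
    {w : E (d + 1)} (Φ : Ch P (j + 2)) (h0 : Φ.face 0 = {w}) :
    ∃ u, Adj P w u ∧ Φ.face 1 = segment ℝ w u := by
  obtain ⟨-, -, -, -, -, -, -, hedge, hadj, hseg⟩ := hF (d + 1) P hP.1
  have h1 : dm (Φ.face 1) = 1 := by
    rw [Φ.dim 1]
    rfl
  obtain ⟨a, b, hab, he⟩ := hedge _ (Φ.isFace 1) h1
  have hw : Vx P w := by
    have := Φ.isFace 0
    rw [h0] at this
    exact this
  have hwin : w ∈ segment ℝ a b := by
    rw [← he]
    have hle : Φ.face 0 ⊆ Φ.face 1 := Φ.mono (Fin.zero_le _)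
    exact hle (by rw [h0]; rfl)
  rcases hseg a b hab w hw hwin with rfl | rfl
  · exact ⟨b, hab, he⟩
  · exact ⟨a, (hadj a w hab).2.2.1, by rw [he, segment_symm]⟩

/-- replace the vertex of a chain by the other end of its edge -/
def swapCh {d j : ℕ} {P : Set (E (d + 1))} (Φ : Ch P (j + 2)) {v : E (d + 1)} (hv : Vx P v)
    (hv1 : v ∈ Φ.face 1) : Ch P (j + 2) where
  face i := if i = 0 then {v} else Φ.face i
  isFace i := by
    by_cases hi : i = 0
    · rw [if_pos hi]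
      exact hv
    · rw [if_neg hi]
      exact Φ.isFace i
  dim i := by
    by_cases hi : i = 0
    · rw [if_pos hi, dm_single, hi]
      rfl
    · rw [if_neg hi]
      exact Φ.dim i
  mono := by
    intro i i' hii
    change (if i = 0 then {v} else Φ.face i) ⊆ (if i' = 0 then {v} else Φ.face i')
    by_cases hi : i = 0
    · rw [if_pos hi]
      by_cases hi' : i' = 0
      · rw [if_pos hi']
      · rw [if_neg hi', singleton_subset_iff]
        have h1 : (1 : Fin (j + 2)) ≤ i' := Fin.one_le_of_ne_zero hi'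
        exact Φ.mono h1 hv1
    · have hi' : i' ≠ 0 := by
        intro h
        rw [h] at hii
        exact hi (Fin.le_zero_iff.1 hii)
      rw [if_neg hi, if_neg hi']
      exact Φ.mono hii

theorem n5 : S_FACES → S_VF → S_NB → S_SH → S_N5 := by
  intro hF hVF hNB hSH d P H v n w n' ι ι' j hP hH hv hw hwv hPTv hPTw Φ' Ψ'
  have hv' := hv
  have hw' := hw
  obtain ⟨a1, a2, a3, a4, a5⟩ := hv'
  obtain ⟨b1, b2, b3, b4, b5⟩ := hw'
  obtain ⟨-, -, -, hdet⟩ := hVF d P v n ι hP a1 a2 a3 a4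
  have heq : ∀ F G, IsFace P F → IsFace P G → v ∈ F → v ∈ G → fig v n ι F = fig v n ι G →
      F = G := fun F G h1 h2 h3 h4 h5 =>
    (hdet F G h1 h2 h3 h4 h5.subset).antisymm (hdet G F h2 h1 h4 h3 h5.symm.subset)
  obtain ⟨Φ, hΦ0, hΦ⟩ := (hSH d P w n' ι' hP b1 b2 b3 b4 (j + 1)).1 Φ'
  obtain ⟨Ψ, hΨ0, hΨ⟩ := (hSH d P w n' ι' hP b1 b2 b3 b4 (j + 1)).1 Ψ'
  refine Pool.Agent.T9h61.NK.down b3 b4 b5 (j + 1) Φ Ψ Φ' Ψ' hΦ0 hΨ0 hΦ hΨ ?_
  -- move the edges to `[w, v]`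
  have move : ∀ Φ : Ch P (j + 2), Φ.face 0 = {w} → ∃ h ∈ H, ∃ Φ₁ : Ch P (j + 2),
      Φ₁.face 0 = {w} ∧ Φ₁.face 1 = segment ℝ w v ∧ ∀ i, h '' Φ.face i = Φ₁.face i := by
    intro Φ h0
    obtain ⟨u, hu, he⟩ := edge_of hF hP Φ h0
    obtain ⟨h, hh, hhw, hhu⟩ := nbtrans hNB hP hH hw hPTw hu hwv
    refine ⟨h, hh, mapCh h (hH h hh) Φ, ?_, ?_, fun i => rfl⟩
    · change h '' Φ.face 0 = {w}
      rw [h0, image_singleton, hhw]
    · change h '' Φ.face 1 = segment ℝ w v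
      rw [he]
      have h6 := image_segment ℝ (h.toLinearEquiv.toLinearMap.toAffineMap) w u
      have h7 : (h.toLinearEquiv.toLinearMap.toAffineMap) w = w := hhw
      have h8 : (h.toLinearEquiv.toLinearMap.toAffineMap) u = v := hhu
      rw [h7, h8] at h6
      exact h6
  obtain ⟨h1, hh1, Φ₁, c0, c1, c2⟩ := move Φ hΦ0
  obtain ⟨h2, hh2, Ψ₁, e0, e1, e2⟩ := move Ψ hΨ0
  have hvΦ : v ∈ Φ₁.face 1 := by
    rw [c1]
    exact right_mem_segment ℝ w v
  have hvΨ : v ∈ Ψ₁.face 1 := by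
    rw [e1]
    exact right_mem_segment ℝ w v
  obtain ⟨Φ₂, f2⟩ := (hSH d P v n ι hP a1 a2 a3 a4 (j + 1)).2 (swapCh Φ₁ a1 hvΦ) rfl
  obtain ⟨Ψ₂, g2⟩ := (hSH d P v n ι hP a1 a2 a3 a4 (j + 1)).2 (swapCh Ψ₁ a1 hvΨ) rfl
  have f2' : ∀ i : Fin (j + 1), fig v n ι (Φ₁.face i.succ) = Φ₂.face i := by
    intro i
    rw [← f2 i]
    change _ = fig v n ι (if i.succ = 0 then {v} else Φ₁.face i.succ)
    rw [if_neg (Fin.succ_ne_zero i)]
  have g2' : ∀ i : Fin (j + 1), fig v n ι (Ψ₁.face i.succ) = Ψ₂.face i := by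
    intro i
    rw [← g2 i]
    change _ = fig v n ι (if i.succ = 0 then {v} else Ψ₁.face i.succ)
    rw [if_neg (Fin.succ_ne_zero i)]
  obtain ⟨k, hk, hkl⟩ := hPTv Φ₂ Ψ₂
  obtain ⟨h3, hh3, hhv, hk2⟩ := core2 a5 hk
  have hmemΦ : ∀ i : Fin (j + 1), v ∈ Φ₁.face i.succ := fun i =>
    Φ₁.mono (Fin.one_le_of_ne_zero (Fin.succ_ne_zero i)) hvΦ
  have hmemΨ : ∀ i : Fin (j + 1), v ∈ Ψ₁.face i.succ := fun i =>
    Ψ₁.mono (Fin.one_le_of_ne_zero (Fin.succ_ne_zero i)) hvΨ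
  have key : ∀ i : Fin (j + 1), h3 '' Φ₁.face i.succ = Ψ₁.face i.succ := by
    intro i
    refine heq _ _ (face_image h3 (hH h3 hh3) (Φ₁.isFace _)) (Ψ₁.isFace _) ?_ (hmemΨ i) ?_
    · exact ⟨v, hmemΦ i, hhv⟩
    · rw [hk2, f2', hkl, ← g2']
  -- `h3` fixes `w`
  have hw3 : h3 w = w := by
    have h10 : h3 w ∈ segment ℝ w v := by
      have h11 := key 0
      have h12 : (Fin.succ 0 : Fin (j + 2)) = 1 := rfl
      rw [h12, c1, e1] at h11
      rw [← h11]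
      exact ⟨w, left_mem_segment ℝ w v, rfl⟩
    have hvx : Vx P (h3 w) := by
      have := face_image h3 (hH h3 hh3) b1
      rwa [image_singleton] at this
    obtain ⟨-, -, -, -, -, -, -, -, -, hseg⟩ := hF (d + 1) P hP.1
    rcases hseg w v hwv _ hvx h10 with h | h
    · exact h
    · exfalso
      exact hwv.1 (h3.injective (by rw [h, hhv]))
  refine ⟨h2⁻¹ * (h3 * h1), H.mul_mem (H.inv_mem hh2) (H.mul_mem hh3 hh1), fun i => ?_⟩
  have hcomp : ∀ F : Set (E (d + 1)), (h2⁻¹ * (h3 * h1) : E (d + 1) ≃ₗᵢ[ℝ] E (d + 1)) '' F =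
      h2.symm '' (h3 '' (h1 '' F)) := by
    intro F
    rw [← image_comp, ← image_comp]
    rfl
  have hΨi : Ψ.face i = h2.symm '' (Ψ₁.face i) := by
    rw [← e2, ← image_comp]
    have : (h2.symm ∘ h2 : E (d + 1) → E (d + 1)) = id := by
      funext x
      simp
    rw [this, image_id]
  rw [hcomp, c2, hΨi]
  congr 1
  induction i using Fin.cases with
  | zero => rw [c0, e0, image_singleton, hw3]
  | succ i => exact key i

end Pool.Agent.T9h61.N1
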